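import Pool.Agent.H25.GapDeg.Lam

/-!
# Thickness and spectral sensitivity, the two-sided inequality

`F` is false on the points of weight `< a` and true on the points of weight `≥ b`, and `L` bounds
the square of the norm of the bipartite adjacency matrix between the true and the false points.
For every layer `l` between `a` and `b`, the product of the positive parts of
`a (n + 1 - a) - (l - a + 1) L` and of `b (n + 1 - b) - (b - l) L` is at most `4 L l (n + 1 - l)`.
-/

set_option autoImplicit false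

open Finset

namespace Pool.H82.GapDeg

open Pool.H25.GapDeg

variable {n : ℕ}

/-- The number `l (n + 1 - l)`. -/
noncomputable def NN (n l : ℕ) : ℝ := (l : ℝ) * ((n : ℝ) + 1 - (l : ℝ))

/-- `g` is nonnegative, and supported on the points of weight `l` at which `P` holds. -/
structure Supp (P : (Fin n → Bool) → Prop) (l : ℕ) (g : (Fin n → Bool) → ℝ) : Prop where
  nn : ∀ x, 0 ≤ g x
  lay : ∀ x, wt x ≠ l → g x = 0
  sup : ∀ x, ¬ P x → g x = 0

/-- The bound for the form between the true and the false points. -/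
def Hyp (F : (Fin n → Bool) → Prop) (L : ℝ) : Prop :=
  ∀ u v : (Fin n → Bool) → ℝ, (∀ x, 0 ≤ u x) → (∀ x, 0 ≤ v x) →
      (∀ x, ¬ F x → u x = 0) → (∀ x, F x → v x = 0) →
      (∑ x, ∑ i, u x * v (fl i x)) ^ 2 ≤ L * (∑ x, u x ^ 2) * (∑ x, v x ^ 2)

lemma swap (u v : (Fin n → Bool) → ℝ) :
    ∑ x, ∑ i, u x * v (fl i x) = ∑ x, ∑ i, v x * u (fl i x) := by
  rw [Finset.sum_comm, Finset.sum_comm (s := univ (α := Fin n → Bool))]
  refine Finset.sum_congr rfl fun i _ => ?_
  rw [← sum_fl i (fun x => u x * v (fl i x))]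
  refine Finset.sum_congr rfl fun x _ => ?_
  rw [fl_fl, mul_comm]

/-- The hypothesis is symmetric. -/
lemma hyp_not {F : (Fin n → Bool) → Prop} {L : ℝ} (H : Hyp F L) : Hyp (fun x => ¬ F x) L := by
  intro u v hu hv hFu hFv
  have h := H v u hv hu (fun x hx => hFv x hx) (fun x hx => hFu x (by simpa using hx))
  rw [swap u v]
  calc (∑ x, ∑ i, v x * u (fl i x)) ^ 2 ≤ L * (∑ x, v x ^ 2) * (∑ x, u x ^ 2) := h
    _ = L * (∑ x, u x ^ 2) * (∑ x, v x ^ 2) := by ring

lemma B_nonneg {g : (Fin n → Bool) → ℝ} (hg : ∀ x, 0 ≤ g x) (i : Fin n) (x : Fin n → Bool) :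
    0 ≤ B i g x := by
  unfold B; split_ifs
  · exact le_rfl
  · exact hg _

lemma A_nonneg {g : (Fin n → Bool) → ℝ} (hg : ∀ x, 0 ≤ g x) (i : Fin n) (x : Fin n → Bool) :
    0 ≤ A i g x := by
  unfold A; split_ifs
  · exact hg _
  · exact le_rfl

lemma D_nonneg {g : (Fin n → Bool) → ℝ} (hg : ∀ x, 0 ≤ g x) (x : Fin n → Bool) : 0 ≤ D g x :=
  Finset.sum_nonneg fun i _ => B_nonneg hg i x

lemma U_nonneg {g : (Fin n → Bool) → ℝ} (hg : ∀ x, 0 ≤ g x) (x : Fin n → Bool) : 0 ≤ U g x :=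
  Finset.sum_nonneg fun i _ => A_nonneg hg i x

lemma D_le {g : (Fin n → Bool) → ℝ} (hg : ∀ x, 0 ≤ g x) (x : Fin n → Bool) :
    D g x ≤ ∑ i, g (fl i x) :=
  Finset.sum_le_sum fun i _ => by
    unfold B; split_ifs
    · exact hg _
    · exact le_rfl

lemma U_le {g : (Fin n → Bool) → ℝ} (hg : ∀ x, 0 ≤ g x) (x : Fin n → Bool) :
    U g x ≤ ∑ i, g (fl i x) :=
  Finset.sum_le_sum fun i _ => by
    unfold A; split_ifs
    · exact le_rfl
    · exact hg _

lemma D_layer {g : (Fin n → Bool) → ℝ} {l : ℕ} (hg : ∀ x, wt x ≠ l → g x = 0)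
    (x : Fin n → Bool) (hx : wt x + 1 ≠ l) (i : Fin n) : B i g x = 0 := by
  unfold B; split_ifs with h
  · rfl
  · exact hg _ (by rw [wt_fl_false h]; exact hx)

lemma U_layer {g : (Fin n → Bool) → ℝ} {l : ℕ} (hg : ∀ x, wt x ≠ l → g x = 0)
    (x : Fin n → Bool) (hx : wt x ≠ l + 1) (i : Fin n) : A i g x = 0 := by
  unfold A; split_ifs with h
  · exact hg _ (by have := wt_fl_true h; omega)
  · rfl

lemma D_layer' {g : (Fin n → Bool) → ℝ} {l : ℕ} (hg : ∀ x, wt x ≠ l → g x = 0)
    (x : Fin n → Bool) (hx : wt x + 1 ≠ l) : D g x = 0 :=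
  Finset.sum_eq_zero fun i _ => D_layer hg x hx i

lemma U_layer' {g : (Fin n → Bool) → ℝ} {l : ℕ} (hg : ∀ x, wt x ≠ l → g x = 0)
    (x : Fin n → Bool) (hx : wt x ≠ l + 1) : U g x = 0 :=
  Finset.sum_eq_zero fun i _ => U_layer hg x hx i

lemma sq_nn (g : (Fin n → Bool) → ℝ) : 0 ≤ ∑ x, g x ^ 2 := Finset.sum_nonneg fun _ _ => sq_nonneg _

/-- The part of `D g` or of `U g` across the boundary. -/
lemma cut {F : (Fin n → Bool) → Prop} {L : ℝ} (hL : 0 ≤ L) (H : Hyp F L)
    {g w : (Fin n → Bool) → ℝ} (hg : ∀ x, 0 ≤ g x) (hgF : ∀ x, ¬ F x → g x = 0)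
    (hw0 : ∀ x, 0 ≤ w x) (hwF : ∀ x, F x → w x = 0) (hw : ∀ x, w x ≤ ∑ i, g (fl i x)) :
    ∑ x, w x ^ 2 ≤ L * ∑ x, g x ^ 2 := by
  have h1 := H g w hg hw0 hgF hwF
  rw [swap] at h1
  have h2 : ∑ x, w x ^ 2 ≤ ∑ x, ∑ i, w x * g (fl i x) := by
    refine Finset.sum_le_sum fun x _ => ?_
    rw [← Finset.mul_sum, sq]
    exact mul_le_mul_of_nonneg_left (hw x) (hw0 x)
  rcases (sq_nn w).eq_or_lt with h0 | hpos
  · rw [← h0]
    exact mul_nonneg hL (sq_nn g)
  · have h4 : (∑ x, w x ^ 2) ^ 2 ≤ L * (∑ x, g x ^ 2) * (∑ x, w x ^ 2) :=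
      (pow_le_pow_left₀ (sq_nn w) h2 2).trans h1
    rw [sq] at h4
    exact le_of_mul_le_mul_right h4 hpos

lemma sumB (g : (Fin n → Bool) → ℝ) :
    ∑ x, ∑ i, B i g x ^ 2 = ∑ x, (wt x : ℝ) * g x ^ 2 := by
  rw [Finset.sum_comm]
  have h : ∀ i : Fin n, ∑ x, B i g x ^ 2 = ∑ x, (if x i = true then (1:ℝ) else 0) * g x ^ 2 := by
    intro i
    rw [← diagB]
    exact Finset.sum_congr rfl fun x _ => sq _
  simp_rw [h]
  rw [Finset.sum_comm]
  refine Finset.sum_congr rfl fun x _ => ?_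
  rw [← Finset.sum_mul, card_true]

lemma sumA (g : (Fin n → Bool) → ℝ) :
    ∑ x, ∑ i, A i g x ^ 2 = ∑ x, ((n : ℝ) - (wt x : ℝ)) * g x ^ 2 := by
  rw [Finset.sum_comm]
  have h : ∀ i : Fin n, ∑ x, A i g x ^ 2 = ∑ x, (if x i = true then (0:ℝ) else 1) * g x ^ 2 := by
    intro i
    rw [← diagA]
    exact Finset.sum_congr rfl fun x _ => sq _
  simp_rw [h]
  rw [Finset.sum_comm]
  refine Finset.sum_congr rfl fun x _ => ?_
  rw [← Finset.sum_mul, card_false]

lemma lay_sum {g : (Fin n → Bool) → ℝ} {l : ℕ} (hg : ∀ x, wt x ≠ l → g x = 0) (c : ℕ → ℝ) :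
    ∑ x, c (wt x) * g x ^ 2 = c l * ∑ x, g x ^ 2 := by
  rw [Finset.mul_sum]
  refine Finset.sum_congr rfl fun x _ => ?_
  by_cases h : wt x = l
  · rw [h]
  · rw [hg x h]; ring

/-- Lower bound for `D` on a layer. -/
lemma D_lower {g : (Fin n → Bool) → ℝ} {l : ℕ} (h0 : ∀ x, 0 ≤ g x)
    (hg : ∀ x, wt x ≠ l → g x = 0) : (l : ℝ) * ∑ x, g x ^ 2 ≤ ∑ x, D g x ^ 2 := by
  rw [← lay_sum hg (fun k => (k : ℝ)), ← sumB]
  refine Finset.sum_le_sum fun x _ => ?_
  exact Finset.sum_sq_le_sq_sum_of_nonneg fun i _ => B_nonneg h0 i x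

/-- Lower bound for `U` on a layer. -/
lemma U_lower {g : (Fin n → Bool) → ℝ} {l : ℕ} (h0 : ∀ x, 0 ≤ g x)
    (hg : ∀ x, wt x ≠ l → g x = 0) : ((n : ℝ) - (l : ℝ)) * ∑ x, g x ^ 2 ≤ ∑ x, U g x ^ 2 := by
  rw [← lay_sum hg (fun k => (n : ℝ) - (k : ℝ)), ← sumA]
  refine Finset.sum_le_sum fun x _ => ?_
  exact Finset.sum_sq_le_sq_sum_of_nonneg fun i _ => A_nonneg h0 i x

/-- Upper bound for `D` on a layer. -/
lemma D_upper {g : (Fin n → Bool) → ℝ} {l : ℕ} (hg : ∀ x, wt x ≠ l → g x = 0) :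
    ∑ x, D g x ^ 2 ≤ NN n l * ∑ x, g x ^ 2 := by
  have h1 : ∀ x, D g x ^ 2 ≤ ((n : ℝ) + 1 - (l : ℝ)) * ∑ i, B i g x ^ 2 := by
    intro x
    by_cases hx : wt x + 1 = l
    · have h2 : D g x = ∑ i, (if x i = true then (0:ℝ) else 1) * B i g x := by
        unfold D
        refine Finset.sum_congr rfl fun i _ => ?_
        unfold B; split_ifs <;> ring
      have h3 := Finset.sum_mul_sq_le_sq_mul_sq univ
        (fun i => if x i = true then (0:ℝ) else 1) (fun i => B i g x)
      rw [← h2] at h3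
      have h4 : ∑ i, (if x i = true then (0:ℝ) else 1) ^ 2 = (n : ℝ) + 1 - (l : ℝ) := by
        have : ∀ i, (if x i = true then (0:ℝ) else 1) ^ 2 = (if x i = true then (0:ℝ) else 1) := by
          intro i; split_ifs <;> norm_num
        simp_rw [this]
        rw [card_false, ← hx]
        push_cast
        ring
      rw [h4] at h3
      exact h3
    · rw [D_layer' hg x hx]
      have : ∑ i, B i g x ^ 2 = 0 := Finset.sum_eq_zero fun i _ => by
        rw [D_layer hg x hx i]; ring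
      rw [this]
      norm_num
  refine (Finset.sum_le_sum fun x _ => h1 x).trans ?_
  rw [← Finset.mul_sum, sumB, lay_sum hg (fun k => (k : ℝ))]
  unfold NN
  exact le_of_eq (by ring)

/-- The true points, from below. -/
lemma low {F : (Fin n → Bool) → Prop} [DecidablePred F] {L : ℝ} (hL : 0 ≤ L) (H : Hyp F L)
    {a : ℕ} (hlow : ∀ x, wt x < a → ¬ F x) (k : ℕ) :
    ∀ g : (Fin n → Bool) → ℝ, Supp F (a + k) g →
      ∑ x, D g x ^ 2 ≤ (NN n (a + k) - NN n a + ((k : ℝ) + 1) * L) * ∑ x, g x ^ 2 := by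
  induction k with
  | zero =>
    intro g hg
    have h1 := cut hL H (g := g) (w := D g) hg.nn hg.sup (D_nonneg hg.nn)
      (fun x hx => D_layer' hg.lay x (fun h => hlow x (by omega) hx)) (D_le hg.nn)
    simp only [add_zero, Nat.cast_zero, zero_add, one_mul, sub_self]
    exact h1
  | succ k ih =>
    intro g hg
    set h : (Fin n → Bool) → ℝ := fun x => if F x then D g x else 0 with hh
    set w : (Fin n → Bool) → ℝ := fun x => if F x then 0 else D g x with hw
    have hhS : Supp F (a + k) h := by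
      refine ⟨fun x => ?_, fun x hx => ?_, fun x hx => ?_⟩
      · simp only [hh]; split_ifs
        · exact D_nonneg hg.nn x
        · exact le_rfl
      · simp only [hh]; split_ifs
        · exact D_layer' hg.lay x (by omega)
        · rfl
      · simp only [hh]; rw [if_neg hx]
    have hcut : ∑ x, w x ^ 2 ≤ L * ∑ x, g x ^ 2 := by
      refine cut hL H hg.nn hg.sup (fun x => ?_) (fun x hx => ?_) (fun x => ?_)
      · simp only [hw]; split_ifs
        · exact le_rfl
        · exact D_nonneg hg.nn x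
      · simp only [hw]; rw [if_pos hx]
      · simp only [hw]; split_ifs
        · exact Finset.sum_nonneg fun i _ => hg.nn _
        · exact D_le hg.nn x
    have hsplit : ∑ x, D g x ^ 2 = ∑ x, w x ^ 2 + ∑ x, h x ^ 2 := by
      rw [← Finset.sum_add_distrib]
      refine Finset.sum_congr rfl fun x _ => ?_
      simp only [hh, hw]; split_ifs <;> ring
    have hI := ih h hhS
    have hc := comm h
    rw [lay_sum hhS.lay (fun k => (n : ℝ) - 2 * (k : ℝ))] at hc
    have hcs := Finset.sum_mul_sq_le_sq_mul_sq univ (U h) g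
    rw [← adj] at hcs
    have he : ∑ x, h x * D g x = ∑ x, h x ^ 2 := by
      refine Finset.sum_congr rfl fun x _ => ?_
      simp only [hh]; split_ifs <;> ring
    rw [he] at hcs
    have hG := sq_nn g
    have hS := sq_nn h
    set G : ℝ := ∑ x, g x ^ 2 with hGd
    set S : ℝ := ∑ x, h x ^ 2 with hSd
    set c : ℝ := NN n (a + (k + 1)) - NN n a + ((k : ℝ) + 1) * L with hcd
    have hU : ∑ x, U h x ^ 2 ≤ c * S := by
      rw [hc]
      have : c = (NN n (a + k) - NN n a + ((k : ℝ) + 1) * L) +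
          ((n : ℝ) - 2 * (((a + k : ℕ)) : ℝ)) := by
        rw [hcd]; unfold NN; push_cast; ring
      rw [this, add_mul]
      linarith
    have hgoal : S ≤ c * G := by
      rcases hS.eq_or_lt with h0 | hpos
      · rw [← h0]
        rcases hG.eq_or_lt with hG0 | hGpos
        · rw [← hG0, mul_zero]
        refine mul_nonneg ?_ hG
        have hD := D_lower hg.nn hg.lay
        rw [hsplit, ← hGd, ← h0, add_zero] at hD
        have hL1 : ((a + (k + 1) : ℕ) : ℝ) ≤ L :=
          le_of_mul_le_mul_right (hD.trans hcut) hGpos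
        have han : a ≤ n := by
          by_contra hcon
          have : G = 0 := by
            rw [hGd]
            refine Finset.sum_eq_zero fun x _ => ?_
            rw [hg.lay x]
            · ring
            · have : wt x ≤ n := by
                have := Finset.card_le_univ (univ.filter (fun i => x i = true))
                simpa [wt] using this
              omega
          linarith
        have han' : (a : ℝ) ≤ n := by exact_mod_cast han
        have hk : (0 : ℝ) ≤ k := Nat.cast_nonneg k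
        have : c = ((k : ℝ) + 1) * ((n : ℝ) + 1 - a) +
            ((k : ℝ) + 1) * (L - ((a + (k + 1) : ℕ) : ℝ)) := by
          rw [hcd]; unfold NN; push_cast; ring
        rw [this]
        have h1 : 0 ≤ ((k : ℝ) + 1) * ((n : ℝ) + 1 - a) :=
          mul_nonneg (by linarith) (by linarith)
        have h2 : 0 ≤ ((k : ℝ) + 1) * (L - ((a + (k + 1) : ℕ) : ℝ)) :=
          mul_nonneg (by linarith) (by linarith)
        linarith
      · have h5 : S * S ≤ (c * G) * S := by
          have := hcs.trans (mul_le_mul_of_nonneg_right hU hG)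
          nlinarith
        exact le_of_mul_le_mul_right h5 hpos
    rw [hsplit]
    have : (NN n (a + (k + 1)) - NN n a + (((k + 1 : ℕ) : ℝ) + 1) * L) * G = c * G + L * G := by
      rw [hcd]; push_cast; ring
    rw [this]
    linarith

/-- The false points, from above. -/
lemma high {F : (Fin n → Bool) → Prop} [DecidablePred F] {L : ℝ} (hL : 0 ≤ L) (H : Hyp F L)
    {b : ℕ} (hbn : b ≤ n) (hhigh : ∀ x, b ≤ wt x → F x) (k : ℕ) :
    ∀ l : ℕ, l + k + 1 = b → ∀ g : (Fin n → Bool) → ℝ, Supp (fun x => ¬ F x) l g →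
      ∑ x, U g x ^ 2 ≤ (NN n (l + 1) - NN n b + ((k : ℝ) + 1) * L) * ∑ x, g x ^ 2 := by
  have H' := hyp_not H
  induction k with
  | zero =>
    intro l hl g hg
    have h1 := cut hL H' (g := g) (w := U g) hg.nn hg.sup (U_nonneg hg.nn)
      (fun x hx => U_layer' hg.lay x (fun h => hx (hhigh x (by omega)))) (U_le hg.nn)
    subst hl
    simp only [add_zero, Nat.cast_zero, zero_add, one_mul, sub_self]
    exact h1
  | succ k ih =>
    intro l hl g hg
    set h : (Fin n → Bool) → ℝ := fun x => if F x then 0 else U g x with hh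
    set w : (Fin n → Bool) → ℝ := fun x => if F x then U g x else 0 with hw
    have hhS : Supp (fun x => ¬ F x) (l + 1) h := by
      refine ⟨fun x => ?_, fun x hx => ?_, fun x hx => ?_⟩
      · simp only [hh]; split_ifs
        · exact le_rfl
        · exact U_nonneg hg.nn x
      · simp only [hh]; split_ifs
        · rfl
        · exact U_layer' hg.lay x hx
      · simp only [hh]; rw [if_pos (by simpa using hx)]
    have hcut : ∑ x, w x ^ 2 ≤ L * ∑ x, g x ^ 2 := by
      refine cut hL H' hg.nn hg.sup (fun x => ?_) (fun x hx => ?_) (fun x => ?_)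
      · simp only [hw]; split_ifs
        · exact U_nonneg hg.nn x
        · exact le_rfl
      · simp only [hw]; rw [if_neg hx]
      · simp only [hw]; split_ifs
        · exact U_le hg.nn x
        · exact Finset.sum_nonneg fun i _ => hg.nn _
    have hsplit : ∑ x, U g x ^ 2 = ∑ x, w x ^ 2 + ∑ x, h x ^ 2 := by
      rw [← Finset.sum_add_distrib]
      refine Finset.sum_congr rfl fun x _ => ?_
      simp only [hh, hw]; split_ifs <;> ring
    have hI := ih (l + 1) (by omega) h hhS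
    have hc := comm h
    rw [lay_sum hhS.lay (fun k => (n : ℝ) - 2 * (k : ℝ))] at hc
    have hcs := Finset.sum_mul_sq_le_sq_mul_sq univ (D h) g
    have hadj : ∑ x, D h x * g x = ∑ x, h x * U g x := by
      have := adj h g
      calc ∑ x, D h x * g x = ∑ x, g x * D h x := Finset.sum_congr rfl fun x _ => mul_comm _ _
        _ = ∑ x, U g x * h x := this
        _ = ∑ x, h x * U g x := Finset.sum_congr rfl fun x _ => mul_comm _ _
    rw [hadj] at hcs
    have he : ∑ x, h x * U g x = ∑ x, h x ^ 2 := by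
      refine Finset.sum_congr rfl fun x _ => ?_
      simp only [hh]; split_ifs <;> ring
    rw [he] at hcs
    have hG := sq_nn g
    have hS := sq_nn h
    set G : ℝ := ∑ x, g x ^ 2 with hGd
    set S : ℝ := ∑ x, h x ^ 2 with hSd
    set c : ℝ := NN n (l + 1) - NN n b + ((k : ℝ) + 1) * L with hcd
    have hU : ∑ x, D h x ^ 2 ≤ c * S := by
      have h1 : ∑ x, D h x ^ 2 = ∑ x, U h x ^ 2 - ((n : ℝ) - 2 * ((l + 1 : ℕ) : ℝ)) * S := by
        linarith
      rw [h1]
      have : c = (NN n (l + 1 + 1) - NN n b + ((k : ℝ) + 1) * L) -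
          ((n : ℝ) - 2 * ((l + 1 : ℕ) : ℝ)) := by
        rw [hcd]; unfold NN; push_cast; ring
      rw [this, sub_mul]
      linarith
    have hgoal : S ≤ c * G := by
      rcases hS.eq_or_lt with h0 | hpos
      · rw [← h0]
        rcases hG.eq_or_lt with hG0 | hGpos
        · rw [← hG0, mul_zero]
        refine mul_nonneg ?_ hG
        have hD := U_lower hg.nn hg.lay
        rw [hsplit, ← hGd, ← h0, add_zero] at hD
        have hL1 : (n : ℝ) - (l : ℝ) ≤ L :=
          le_of_mul_le_mul_right (hD.trans hcut) hGpos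
        have hk : (0 : ℝ) ≤ k := Nat.cast_nonneg k
        have hb : (b : ℝ) = (l : ℝ) + k + 2 := by rw [← hl]; push_cast; ring
        have hb0 : (0 : ℝ) ≤ b := Nat.cast_nonneg b
        have : c = (b : ℝ) * ((k : ℝ) + 1) + ((k : ℝ) + 1) * (L - ((n : ℝ) - l)) := by
          rw [hcd]; unfold NN; rw [hb]; push_cast; ring
        rw [this]
        have h1 : 0 ≤ (b : ℝ) * ((k : ℝ) + 1) := mul_nonneg hb0 (by linarith)
        have h2 : 0 ≤ ((k : ℝ) + 1) * (L - ((n : ℝ) - l)) :=
          mul_nonneg (by linarith) (by linarith)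
        linarith
      · have h5 : S * S ≤ (c * G) * S := by
          have := hcs.trans (mul_le_mul_of_nonneg_right hU hG)
          nlinarith
        exact le_of_mul_le_mul_right h5 hpos
    rw [hsplit]
    have : (NN n (l + 1) - NN n b + (((k + 1 : ℕ) : ℝ) + 1) * L) * G = c * G + L * G := by
      rw [hcd]; push_cast; ring
    rw [this]
    linarith

lemma D_add (p q : (Fin n → Bool) → ℝ) (x : Fin n → Bool) :
    D (fun y => p y + q y) x = D p x + D q x := by
  unfold D
  rw [← Finset.sum_add_distrib]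
  refine Finset.sum_congr rfl fun i _ => ?_
  unfold B; split_ifs <;> ring

/-- The cross term. -/
lemma crossterm {F : (Fin n → Bool) → Prop} [DecidablePred F] {L : ℝ} (hL : 0 ≤ L) (H : Hyp F L)
    {l : ℕ} (hln : l ≤ n) {p q : (Fin n → Bool) → ℝ} (hp : Supp F l p)
    (hq : Supp (fun x => ¬ F x) l q) :
    (∑ x, D p x * D q x) ^ 2 ≤ 4 * L * NN n l * ((∑ x, p x ^ 2) * ∑ x, q x ^ 2) := by
  have hN : 0 ≤ NN n l := by
    unfold NN
    have : (l : ℝ) ≤ n := by exact_mod_cast hln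
    exact mul_nonneg (Nat.cast_nonneg l) (by linarith)
  set P : ℝ := ∑ x, p x ^ 2 with hP
  set Q : ℝ := ∑ x, q x ^ 2 with hQ
  set X1 : ℝ := ∑ x, D p x * (if F x then D q x else 0) with hX1
  set X2 : ℝ := ∑ x, (if F x then 0 else D p x) * D q x with hX2
  have hX : ∑ x, D p x * D q x = X1 + X2 := by
    rw [hX1, hX2, ← Finset.sum_add_distrib]
    refine Finset.sum_congr rfl fun x _ => ?_
    split_ifs <;> ring
  have hP0 : 0 ≤ P := sq_nn p
  have hQ0 : 0 ≤ Q := sq_nn q
  have h1 : X1 ^ 2 ≤ (NN n l * P) * (L * Q) := by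
    refine (Finset.sum_mul_sq_le_sq_mul_sq univ (D p) _).trans ?_
    refine mul_le_mul (D_upper hp.lay) ?_ (sq_nn _) (mul_nonneg hN hP0)
    refine cut hL (hyp_not H) hq.nn hq.sup (fun x => ?_) (fun x hx => ?_) (fun x => ?_)
    · split_ifs
      · exact D_nonneg hq.nn x
      · exact le_rfl
    · rw [if_neg hx]
    · split_ifs
      · exact D_le hq.nn x
      · exact Finset.sum_nonneg fun i _ => hq.nn _
  have h2 : X2 ^ 2 ≤ (L * P) * (NN n l * Q) := by
    refine (Finset.sum_mul_sq_le_sq_mul_sq univ _ (D q)).trans ?_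
    refine mul_le_mul ?_ (D_upper hq.lay) (sq_nn _) (mul_nonneg hL hP0)
    refine cut hL H hp.nn hp.sup (fun x => ?_) (fun x hx => ?_) (fun x => ?_)
    · split_ifs
      · exact le_rfl
      · exact D_nonneg hp.nn x
    · rw [if_pos hx]
    · split_ifs
      · exact Finset.sum_nonneg fun i _ => hp.nn _
      · exact D_le hp.nn x
  rw [hX]
  nlinarith [sq_nonneg (X1 - X2)]

/-- **The two-sided inequality.** -/
theorem two {F : (Fin n → Bool) → Prop} [DecidablePred F] (L : ℝ) (hL : 0 ≤ L)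
    (H : ∀ u v : (Fin n → Bool) → ℝ, (∀ x, 0 ≤ u x) → (∀ x, 0 ≤ v x) →
      (∀ x, ¬ F x → u x = 0) → (∀ x, F x → v x = 0) →
      (∑ x, ∑ i, u x * v (fl i x)) ^ 2 ≤ L * (∑ x, u x ^ 2) * (∑ x, v x ^ 2))
    (a l b : ℕ) (hal : a ≤ l) (hlb : l < b) (hbn : b ≤ n)
    (hlow : ∀ x, wt x < a → ¬ F x) (hhigh : ∀ x, b ≤ wt x → F x) :
    max 0 ((a : ℝ) * ((n : ℝ) + 1 - (a : ℝ)) - ((l : ℝ) - (a : ℝ) + 1) * L) *
      max 0 ((b : ℝ) * ((n : ℝ) + 1 - (b : ℝ)) - ((b : ℝ) - (l : ℝ)) * L) ≤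
      4 * L * ((l : ℝ) * ((n : ℝ) + 1 - (l : ℝ))) := by
  classical
  have hH : Hyp F L := H
  have hln : l ≤ n := by omega
  set p : (Fin n → Bool) → ℝ := fun x => if wt x = l ∧ F x then 1 else 0 with hp
  set q : (Fin n → Bool) → ℝ := fun x => if wt x = l ∧ ¬ F x then 1 else 0 with hq
  have hpS : Supp F l p := by
    refine ⟨fun x => ?_, fun x hx => ?_, fun x hx => ?_⟩
    · simp only [hp]; split_ifs <;> norm_num
    · simp only [hp]; rw [if_neg (fun h => hx h.1)]
    · simp only [hp]; rw [if_neg (fun h => hx h.2)]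
  have hqS : Supp (fun x => ¬ F x) l q := by
    refine ⟨fun x => ?_, fun x hx => ?_, fun x hx => ?_⟩
    · simp only [hq]; split_ifs <;> norm_num
    · simp only [hq]; rw [if_neg (fun h => hx h.1)]
    · simp only [hq]; rw [if_neg (fun h => hx h.2)]
  have hpq : ∀ x, seq F l 0 x = p x + q x := by
    intro x
    simp only [seq, hp, hq]
    by_cases h1 : wt x = l <;> by_cases h2 : F x <;> simp [h1, h2]
  have hpqf : seq F l 0 = fun x => p x + q x := funext hpq
  have hN0 : N F l 0 = (∑ x, p x ^ 2) + ∑ x, q x ^ 2 := by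
    unfold N
    rw [← Finset.sum_add_distrib]
    refine Finset.sum_congr rfl fun x _ => ?_
    rw [hpq]
    simp only [hp, hq]
    by_cases h1 : wt x = l <;> by_cases h2 : F x <;> simp [h1, h2]
  have hNpos := N_zero_pos F l hln
  have hsum := sum_D_zero F l
  have hexp : ∑ x, D (seq F l 0) x ^ 2 =
      ∑ x, D p x ^ 2 + 2 * (∑ x, D p x * D q x) + ∑ x, D q x ^ 2 := by
    rw [hpqf, Finset.mul_sum, ← Finset.sum_add_distrib, ← Finset.sum_add_distrib]
    refine Finset.sum_congr rfl fun x _ => ?_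
    rw [D_add]
    ring
  obtain ⟨k, rfl⟩ : ∃ k, l = a + k := ⟨l - a, by omega⟩
  have hA := low hL hH hlow k p hpS
  obtain ⟨m, hm⟩ : ∃ m, a + k + m + 1 = b := ⟨b - (a + k) - 1, by omega⟩
  have hC := high hL hH hbn hhigh m (a + k) hm q hqS
  have hcq := comm q
  rw [lay_sum hqS.lay (fun k => (n : ℝ) - 2 * (k : ℝ))] at hcq
  have hX := crossterm hL hH hln hpS hqS
  rw [hexp, hN0] at hsum
  rw [hN0] at hNpos
  have hP0 := sq_nn p
  have hQ0 := sq_nn q
  set P : ℝ := ∑ x, p x ^ 2 with hPd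
  set Q : ℝ := ∑ x, q x ^ 2 with hQd
  set X : ℝ := ∑ x, D p x * D q x with hXd
  set NL : ℝ := NN n (a + k) with hNL
  have hNL0 : 0 ≤ NL := by
    rw [hNL]; unfold NN
    have : ((a + k : ℕ) : ℝ) ≤ n := by exact_mod_cast hln
    exact mul_nonneg (Nat.cast_nonneg _) (by linarith)
  have hNLe : (((a + k : ℕ) : ℝ)) * ((n : ℝ) + 1 - ((a + k : ℕ) : ℝ)) = NL := rfl
  rw [hNLe] at hsum ⊢
  set s : ℝ := (a : ℝ) * ((n : ℝ) + 1 - (a : ℝ)) - (((a + k : ℕ) : ℝ) - (a : ℝ) + 1) * L with hs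
  set t : ℝ := (b : ℝ) * ((n : ℝ) + 1 - (b : ℝ)) - ((b : ℝ) - ((a + k : ℕ) : ℝ)) * L with ht
  have hA' : ∑ x, D p x ^ 2 ≤ (NL - s) * P := by
    have : NL - s = NN n (a + k) - NN n a + ((k : ℝ) + 1) * L := by
      rw [hs, hNL]; unfold NN; push_cast; ring
    rw [this]; exact hA
  have hC' : ∑ x, D q x ^ 2 ≤ (NL - t) * Q := by
    have hb : (b : ℝ) = (a : ℝ) + k + m + 1 := by rw [← hm]; push_cast; ring
    have : NL - t = (NN n (a + k + 1) - NN n b + ((m : ℝ) + 1) * L) -
        ((n : ℝ) - 2 * ((a + k : ℕ) : ℝ)) := by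
      rw [ht, hNL]; unfold NN; rw [hb]; push_cast; ring
    rw [this, sub_mul]
    linarith
  have hmain : s * P + t * Q ≤ 2 * X := by nlinarith
  have hR : 0 ≤ 4 * L * NL := by positivity
  rcases le_or_gt s 0 with hs0 | hs0
  · rw [max_eq_left hs0, zero_mul]; exact hR
  rcases le_or_gt t 0 with ht0 | ht0
  · rw [max_eq_left ht0, mul_zero]; exact hR
  rw [max_eq_right hs0.le, max_eq_right ht0.le]
  have hpos : 0 < s * P + t * Q := by
    rcases hP0.eq_or_lt with h | h
    · have : 0 < Q := by linarith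
      rw [← h, mul_zero, zero_add]; exact mul_pos ht0 this
    · have h1 := mul_pos hs0 h
      have h2 := mul_nonneg ht0.le hQ0
      linarith
  have hsq : (s * P + t * Q) ^ 2 ≤ 4 * (4 * L * NL * (P * Q)) := by
    have h1 : (s * P + t * Q) ^ 2 ≤ (2 * X) ^ 2 := pow_le_pow_left₀ hpos.le hmain 2
    nlinarith
  have hPQ : 0 < P * Q := by
    by_contra hcon
    have h0 : P * Q = 0 := le_antisymm (not_lt.1 hcon) (mul_nonneg hP0 hQ0)
    rw [h0] at hsq
    nlinarith [pow_pos hpos 2]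
  have h6 : (s * t) * (P * Q) ≤ (4 * L * NL) * (P * Q) := by
    nlinarith [sq_nonneg (s * P - t * Q)]
  exact le_of_mul_le_mul_right h6 hPQ

end Pool.H82.GapDeg
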